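import Pool.Agent.Lib.MP_04668c_co.E.Base

set_option autoImplicit false

namespace Pool.Agent.Lib.MP_04668c_co.E.H2

open Finset Classical Module
open Pool.Agent.Lib.MP_04668c_co Pool.Agent.Lib.MP_04668c_co.E

theorem final (hM : MainStatement) (hSm : SmallStatement) : FinalStatement := by
  intro h hh
  obtain ⟨n₀, hn₀⟩ := exists_nat_gt (1 / h)
  have hn₀pos : (0 : ℝ) < n₀ := lt_trans (by positivity) hn₀
  have hn1 : 1 ≤ n₀ := by exact_mod_cast hn₀pos
  obtain ⟨C, n₁, hC⟩ := hM n₀ hn1
  refine ⟨max C (n₁ ^ 2), ?_⟩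
  intro V _ _ G _ hdeg hexp
  have hD : Drawable G (max C (n₁ ^ 2)) := by
    rcases Nat.lt_or_ge (Fintype.card V) n₁ with hlt | hge
    · exact (hSm V G).mono ((Nat.pow_le_pow_left hlt.le 2).trans (le_max_right _ _))
    · refine (hC V G hge ?_ ?_).mono (le_max_left _ _)
      · intro v
        have h1 : G.degree v ≤ 4 := (G.degree_le_maxDegree v).trans hdeg
        rw [← SimpleGraph.card_neighborFinset_eq_degree] at h1
        refine le_trans (le_of_eq ?_) h1
        congr 1
        ext u
        simp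
      · intro Y hY
        have h1 := hexp Y hY
        have h2 : ((Y ×ˢ Yᶜ).filter (fun p => G.Adj p.1 p.2)).card = (bdry G Y).card := by
          unfold bdry
          congr 1
          ext p
          simp
        rw [h2] at h1
        have h3 : (1 : ℝ) ≤ n₀ * h := by
          rw [div_lt_iff₀ hh] at hn₀
          exact hn₀.le
        have h4 : (Y.card : ℝ) ≤ n₀ * (bdry G Y).card := by
          calc (Y.card : ℝ) = 1 * Y.card := (one_mul _).symm
            _ ≤ n₀ * h * Y.card := mul_le_mul_of_nonneg_right h3 (Nat.cast_nonneg _)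
            _ = n₀ * (h * Y.card) := by ring
            _ ≤ n₀ * (bdry G Y).card := mul_le_mul_of_nonneg_left h1 hn₀pos.le
        exact_mod_cast h4
  obtain ⟨f, hf, hs, S, hS, hd⟩ := hD
  exact ⟨f, hf, hs, S, hS, hd⟩

end Pool.Agent.Lib.MP_04668c_co.E.H2
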