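import Pool.Agent.Lib.MP_04668c_co.E.Base

set_option autoImplicit false

namespace Pool.Agent.Lib.MP_04668c_co.E.H2

open Finset Classical Module
open Pool.Agent.Lib.MP_04668c_co Pool.Agent.Lib.MP_04668c_co.E

theorem tcard : TcardStatement := by
  intro V X _ _ B b h2 hb h4
  have hX : Fintype.card X ≤ 2 * Fintype.card V := by
    have hdc : ∑ x : X, (B x).card = ∑ v : V, (univ.filter (fun x => v ∈ B x)).card := by
      simp only [Finset.card_eq_sum_ones, Finset.sum_filter]
      rw [Finset.sum_comm]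
      refine Finset.sum_congr rfl (fun x _ => ?_)
      rw [← Finset.sum_filter]
      congr 1
      ext v
      simp
    have hl : ∑ x : X, 2 ≤ ∑ x : X, (B x).card := Finset.sum_le_sum (fun x _ => h2 x)
    have hr : ∑ v : V, (univ.filter (fun x => v ∈ B x)).card ≤ ∑ v : V, 4 :=
      Finset.sum_le_sum (fun v _ => h4 v)
    rw [Finset.sum_const, smul_eq_mul, Finset.card_univ] at hl hr
    omega
  refine ⟨hX, ?_⟩
  have hsub : (univ.filter (fun i : Tst X V => IsTst B i)) ⊆
      ((univ : Finset Bool) ×ˢ ((univ : Finset X).sigma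
        (fun x => (B x ×ˢ (B x ×ˢ (univ : Finset V)))))).image
        (fun i => ((i.1, i.2.1, i.2.2.1, i.2.2.2.1, i.2.2.2.2) : Tst X V)) := by
    rintro ⟨τ, x, u, v, w⟩ hi
    rw [mem_filter] at hi
    obtain ⟨-, hu, hv, -, -⟩ := hi
    rw [mem_image]
    refine ⟨(τ, ⟨x, u, v, w⟩), ?_, rfl⟩
    rw [mem_product]
    exact ⟨mem_univ _, mem_sigma.mpr ⟨mem_univ _, mem_product.mpr ⟨hu, mem_product.mpr
      ⟨hv, mem_univ _⟩⟩⟩⟩
  refine (Finset.card_le_card hsub).trans (Finset.card_image_le.trans ?_)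
  rw [Finset.card_product, Finset.card_sigma, Finset.card_univ, Fintype.card_bool]
  have h3 : ∑ x : X, (B x ×ˢ (B x ×ˢ (univ : Finset V))).card ≤
      ∑ _x : X, b * (b * Fintype.card V) := by
    refine Finset.sum_le_sum (fun x _ => ?_)
    rw [Finset.card_product, Finset.card_product, Finset.card_univ]
    exact Nat.mul_le_mul (hb x) (Nat.mul_le_mul_right _ (hb x))
  rw [Finset.sum_const, smul_eq_mul, Finset.card_univ] at h3
  calc 2 * ∑ x : X, (B x ×ˢ (B x ×ˢ (univ : Finset V))).card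
      ≤ 2 * (Fintype.card X * (b * (b * Fintype.card V))) := Nat.mul_le_mul_left _ h3
    _ ≤ 2 * (2 * Fintype.card V * (b * (b * Fintype.card V))) :=
        Nat.mul_le_mul_left _ (Nat.mul_le_mul_right _ hX)
    _ = 4 * b ^ 2 * Fintype.card V ^ 2 := by ring

end Pool.Agent.Lib.MP_04668c_co.E.H2
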