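import Pool.Agent.Lib.MP_04668c_co.E.Base

set_option autoImplicit false

namespace Pool.Agent.Lib.MP_04668c_co.E.H2

open Finset Classical Module
open Pool.Agent.Lib.MP_04668c_co Pool.Agent.Lib.MP_04668c_co.E

/-- A placement separating all pairs of vertices that can be separated. -/
theorem exists_sep {V : Type} [Fintype V] (W : Submodule ℝ (V → ℝ × ℝ)) :
    ∃ p ∈ W, ∀ u v : V, (∃ p' ∈ W, p' u ≠ p' v) → p u ≠ p v := by
  let f : (V × V) × Bool → (V → ℝ × ℝ) → ℝ := fun i p =>
    if i.2 = true then (p i.1.1).1 - (p i.1.2).1 else (p i.1.1).2 - (p i.1.2).2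
  obtain ⟨p, hp, hne⟩ := exists_common W
    (univ.filter (fun i : (V × V) × Bool => ∃ w ∈ W, f i w ≠ 0)) f (by
      rintro ⟨⟨u, v⟩, b⟩ -
      cases b with
      | true =>
        have h := PolyLine.linear
          (((LinearMap.fst ℝ ℝ ℝ).comp (LinearMap.proj u : (V → ℝ × ℝ) →ₗ[ℝ] ℝ × ℝ)) -
            ((LinearMap.fst ℝ ℝ ℝ).comp (LinearMap.proj v : (V → ℝ × ℝ) →ₗ[ℝ] ℝ × ℝ)))
        exact h
      | false =>
        have h := PolyLine.linear
          (((LinearMap.snd ℝ ℝ ℝ).comp (LinearMap.proj u : (V → ℝ × ℝ) →ₗ[ℝ] ℝ × ℝ)) -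
            ((LinearMap.snd ℝ ℝ ℝ).comp (LinearMap.proj v : (V → ℝ × ℝ) →ₗ[ℝ] ℝ × ℝ)))
        exact h)
    (fun i hi => (mem_filter.mp hi).2)
  refine ⟨p, hp, ?_⟩
  rintro u v ⟨p', hp', hne'⟩ heq
  by_cases h1 : (p' u).1 = (p' v).1
  · have h2 : (p' u).2 ≠ (p' v).2 := fun h2 => hne' (Prod.ext h1 h2)
    have := hne ((u, v), false) (mem_filter.mpr ⟨mem_univ _, p', hp', by
      show (if false = true then (p' u).1 - (p' v).1 else (p' u).2 - (p' v).2) ≠ 0
      rw [if_neg (by decide)]; exact sub_ne_zero.mpr h2⟩)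
    apply this
    show (if false = true then (p u).1 - (p v).1 else (p u).2 - (p v).2) = 0
    rw [if_neg (by decide), heq, sub_self]
  · have := hne ((u, v), true) (mem_filter.mpr ⟨mem_univ _, p', hp', by
      show (if true = true then (p' u).1 - (p' v).1 else (p' u).2 - (p' v).2) ≠ 0
      rw [if_pos rfl]; exact sub_ne_zero.mpr h1⟩)
    apply this
    show (if true = true then (p u).1 - (p v).1 else (p u).2 - (p v).2) = 0
    rw [if_pos rfl, heq, sub_self]

/-- The classes of an equivalence relation have many edges between them. -/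
theorem class_edges {V : Type} [Fintype V] (G : SimpleGraph V) (n₀ : ℕ) (hE : Expd G n₀)
    (s : Setoid V)
    (hs : ∀ u, 2 * (univ.filter (fun v => (Quotient.mk s v) = Quotient.mk s u)).card ≤
      Fintype.card V) :
    Fintype.card V ≤ n₀ *
      ((univ : Finset (V × V)).filter (fun p => G.Adj p.1 p.2 ∧
        (Quotient.mk s p.1) ≠ Quotient.mk s p.2)).card := by
  classical
  have hfib : Fintype.card V =
      ∑ c ∈ (univ : Finset (Quotient s)), (univ.filter (fun v => Quotient.mk s v = c)).card := by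
    rw [← Finset.card_univ (α := V)]
    exact Finset.card_eq_sum_card_fiberwise (fun _ _ => mem_univ _)
  set P := (univ : Finset (V × V)).filter (fun p => G.Adj p.1 p.2 ∧
        (Quotient.mk s p.1) ≠ Quotient.mk s p.2) with hP
  have hPf : P.card = ∑ c ∈ (univ : Finset (Quotient s)),
      (P.filter (fun p => Quotient.mk s p.1 = c)).card :=
    Finset.card_eq_sum_card_fiberwise (fun _ _ => mem_univ _)
  rw [hfib, hPf, Finset.mul_sum]
  refine Finset.sum_le_sum (fun c _ => ?_)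
  obtain ⟨u, rfl⟩ := Quotient.exists_rep c
  refine (hE _ (hs u)).trans (Nat.mul_le_mul_left _ (Finset.card_le_card ?_))
  intro p hp
  simp only [bdry, mem_filter, mem_product, mem_compl, mem_univ, true_and] at hp
  obtain ⟨⟨h1, h2⟩, h3⟩ := hp
  rw [mem_filter, hP, mem_filter]
  refine ⟨⟨mem_univ _, h3, ?_⟩, h1⟩
  intro h
  exact h2 (h ▸ h1)

/-- Edges meeting `S`. -/
theorem edges_S {V : Type} [Fintype V] (G : SimpleGraph V) (hD : Deg4 G) (S : Finset V) :
    ((univ : Finset (V × V)).filter (fun p => G.Adj p.1 p.2 ∧ (p.1 ∈ S ∨ p.2 ∈ S))).card ≤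
      8 * S.card := by
  classical
  have h1 : ((S.sigma (fun u => univ.filter (fun v => G.Adj u v))).card) ≤ 4 * S.card := by
    rw [Finset.card_sigma]
    calc ∑ a ∈ S, (univ.filter (fun v => G.Adj a v)).card ≤ ∑ a ∈ S, 4 :=
          Finset.sum_le_sum (fun a _ => hD a)
      _ = 4 * S.card := by rw [Finset.sum_const, smul_eq_mul, mul_comm]
  have h2 : ((univ : Finset (V × V)).filter (fun p => G.Adj p.1 p.2 ∧ (p.1 ∈ S ∨ p.2 ∈ S))) ⊆
      (S.sigma (fun u => univ.filter (fun v => G.Adj u v))).image (fun x => (x.1, x.2)) ∪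
      (S.sigma (fun u => univ.filter (fun v => G.Adj u v))).image (fun x => (x.2, x.1)) := by
    rintro ⟨u, v⟩ h
    rw [mem_filter] at h
    rw [mem_union, mem_image, mem_image]
    rcases h.2.2 with h' | h'
    · exact Or.inl ⟨⟨u, v⟩, mem_sigma.mpr ⟨h', mem_filter.mpr ⟨mem_univ _, h.2.1⟩⟩, rfl⟩
    · exact Or.inr ⟨⟨v, u⟩, mem_sigma.mpr ⟨h', mem_filter.mpr ⟨mem_univ _, h.2.1.symm⟩⟩, rfl⟩
  refine (Finset.card_le_card h2).trans ((Finset.card_union_le _ _).trans ?_)
  have h3 := Finset.card_image_le (s := S.sigma (fun u => univ.filter (fun v => G.Adj u v)))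
    (f := fun x => ((x.1, x.2) : V × V))
  have h4 := Finset.card_image_le (s := S.sigma (fun u => univ.filter (fun v => G.Adj u v)))
    (f := fun x => ((x.2, x.1) : V × V))
  omega

theorem noncol : NoncolStatement := by
  intro V X _ _ G S B n₀ L b q hn₀ hV hD hE hS hQ
  obtain ⟨p, hp, hsep⟩ := exists_sep (kerq B q)
  refine ⟨p, hp, ?_⟩
  let s : Setoid V := ⟨fun u v => ∀ p' ∈ kerq B q, p' u = p' v,
    fun u p' _ => rfl, fun h p' hp' => (h p' hp').symm, fun h h' p' hp' =>
      (h p' hp').trans (h' p' hp')⟩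
  have hmk : ∀ u v : V, Quotient.mk s u = Quotient.mk s v ↔ ∀ p' ∈ kerq B q, p' u = p' v :=
    fun u v => Quotient.eq (r := s)
  have hcls : ∀ u, 2 * (univ.filter (fun v => (Quotient.mk s v) = Quotient.mk s u)).card ≤
      Fintype.card V := by
    intro u
    by_contra hlt
    push Not at hlt
    obtain ⟨p', hp', v, hv, w, hw, hne⟩ := hQ _ hlt (by omega)
    rw [mem_filter] at hv hw
    exact hne ((hmk v w).mp (hv.2.trans hw.2.symm) p' hp')
  have h1 := class_edges G n₀ hE s hcls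
  refine h1.trans (Nat.mul_le_mul_left _ ?_)
  have hsub : ((univ : Finset (V × V)).filter (fun p => G.Adj p.1 p.2 ∧
        (Quotient.mk s p.1) ≠ Quotient.mk s p.2)) ⊆
      ((ncs B p).biUnion (fun x => B x ×ˢ B x)) ∪
      ((univ : Finset (V × V)).filter (fun p => G.Adj p.1 p.2 ∧ (p.1 ∈ S ∨ p.2 ∈ S))) := by
    rintro ⟨u, v⟩ h
    rw [mem_filter] at h
    obtain ⟨-, hadj, hne⟩ := h
    rw [mem_union]
    by_cases huS : u ∈ S
    · exact Or.inr (mem_filter.mpr ⟨mem_univ _, hadj, Or.inl huS⟩)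
    by_cases hvS : v ∈ S
    · exact Or.inr (mem_filter.mpr ⟨mem_univ _, hadj, Or.inr hvS⟩)
    left
    obtain ⟨x, hu, hv⟩ := hS.cov u v hadj huS hvS
    have hne' : ∃ p' ∈ kerq B q, p' u ≠ p' v := by
      by_contra hcon
      push Not at hcon
      exact hne ((hmk u v).mpr hcon)
    rw [mem_biUnion]
    refine ⟨x, mem_filter.mpr ⟨mem_univ _, u, hu, v, hv, hsep u v hne'⟩, ?_⟩
    exact mem_product.mpr ⟨hu, hv⟩
  refine (Finset.card_le_card hsub).trans ((Finset.card_union_le _ _).trans ?_)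
  have h2 : ((ncs B p).biUnion (fun x => B x ×ˢ B x)).card ≤ b ^ 2 * (ncs B p).card := by
    refine Finset.card_biUnion_le.trans ?_
    calc ∑ x ∈ ncs B p, (B x ×ˢ B x).card ≤ ∑ x ∈ ncs B p, b ^ 2 :=
          Finset.sum_le_sum (fun x _ => by
            rw [Finset.card_product, pow_two]; exact Nat.mul_le_mul (hS.size x) (hS.size x))
      _ = b ^ 2 * (ncs B p).card := by rw [Finset.sum_const, smul_eq_mul, mul_comm]
  have h3 := edges_S G hD S
  rw [hS.cardS] at h3
  omega

end Pool.Agent.Lib.MP_04668c_co.E.H2
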